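import Pool.Agent.N448.PC.Final

set_option autoImplicit false

/-! # Record gaps at the residues of `x ^ u * g ^ (v x)` -/

namespace Pool.Agent.N448.PC

open Finset Filter Polynomial
open Pool.Agent.H256R2.SC (ff)

/-- the polynomials `g ^ (v j) X ^ u` -/
noncomputable def mono (p g u v j : ℕ) : (ZMod p)[X] := C ((g : ZMod p) ^ (v * j)) * X ^ u

lemma mono_degree (p g u v j : ℕ) : (mono p g u v j).natDegree ≤ u :=
  (natDegree_C_mul_le _ _).trans (natDegree_X_pow_le _)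

lemma mono_res (p g u v x : ℕ) [Fact p.Prime] :
    res p (orderOf (g : ZMod p)) (mono p g u v) x = x ^ u * g ^ (v * x) % p := by
  unfold res mono
  rw [eval_mul, eval_C, eval_pow, eval_X]
  have h1 : (g : ZMod p) ^ (v * (x % orderOf (g : ZMod p))) = (g : ZMod p) ^ (v * x) := by
    rw [mul_comm, pow_mul, pow_mod_orderOf, ← pow_mul, mul_comm]
  rw [h1]
  have h2 : (g : ZMod p) ^ (v * x) * (x : ZMod p) ^ u = ((x ^ u * g ^ (v * x) : ℕ) : ZMod p) := by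
    push_cast
    ring
  rw [h2, ZMod.val_natCast]

lemma count_le (p g : ℕ) [Fact p.Prime] (J : ℕ) {k : ℕ} (u v : Fin k → ℕ) (hu : ∀ i, 1 ≤ u i)
    (hv : ∀ i, v i ≤ J) (hinj : ∀ i j, u i = u j → v i = v j → i = j)
    (h10 : ∀ i, ¬ (u i = 1 ∧ v i = 0)) (h : Fin k → ZMod p) (hh : h ≠ 0) (c : ZMod p) :
    ((range (orderOf (g : ZMod p))).filter fun j => ((∑ i, C (h i) * mono p g (u i) (v i) j) + C c * X).natDegree = 0).card ≤ J := by
  classical
  obtain ⟨i₀, hi₀⟩ := Function.ne_iff.1 hh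
  simp only [Pi.zero_apply] at hi₀
  set Q : (ZMod p)[X] := ∑ i, (if u i = u i₀ then C (h i) * X ^ v i else 0) +
    C (if u i₀ = 1 then c else 0) with hQ
  have hQ0 : Q ≠ 0 := by
    intro h0
    have h1 : Q.coeff (v i₀) = h i₀ := by
      rw [hQ, coeff_add, finsetSum_coeff]
      have h2 : ∀ i ∈ (univ : Finset (Fin k)),
          (if u i = u i₀ then C (h i) * X ^ v i else 0 : (ZMod p)[X]).coeff (v i₀) =
          if i = i₀ then h i₀ else 0 := by
        intro i _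
        split_ifs with h3 h4 h4
        · rw [h4, coeff_C_mul, coeff_X_pow_self, mul_one]
        · rw [coeff_C_mul, coeff_X_pow, if_neg, mul_zero]
          intro h5
          exact h4 (hinj i i₀ h3 h5.symm)
        · exact absurd (by rw [h4]) h3
        · exact coeff_zero _
      rw [sum_congr rfl h2, sum_ite_eq' univ i₀, if_pos (mem_univ _)]
      split_ifs with h3
      · rw [coeff_C, if_neg, add_zero]
        exact fun h4 => h10 i₀ ⟨h3, h4⟩
      · rw [C_0, coeff_zero, add_zero]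
    rw [h0, coeff_zero] at h1
    exact hi₀ h1.symm
  have hQd : Q.natDegree ≤ J := by
    rw [hQ]
    refine (natDegree_add_le _ _).trans (max_le ?_ ?_)
    · refine natDegree_sum_le_of_forall_le _ _ fun i _ => ?_
      split_ifs
      · exact (natDegree_C_mul_le _ _).trans ((natDegree_X_pow_le _).trans (hv i))
      · rw [natDegree_zero]; exact Nat.zero_le _
    · rw [natDegree_C]; exact Nat.zero_le _
  have hroot : ∀ j ∈ ((range (orderOf (g : ZMod p))).filter fun j =>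
      ((∑ i, C (h i) * mono p g (u i) (v i) j) + C c * X).natDegree = 0),
      (g : ZMod p) ^ j ∈ Q.roots.toFinset := by
    intro j hj
    rw [mem_filter] at hj
    rw [Multiset.mem_toFinset, mem_roots hQ0, IsRoot.def]
    have h1 : ((∑ i, C (h i) * mono p g (u i) (v i) j) + C c * X).coeff (u i₀) = 0 := by
      apply coeff_eq_zero_of_natDegree_lt
      rw [hj.2]
      exact hu i₀
    rw [← h1, coeff_add, finsetSum_coeff, hQ, eval_add, eval_finsetSum, eval_C]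
    congr 1
    · refine sum_congr rfl fun i _ => ?_
      unfold mono
      rw [← mul_assoc, ← C_mul, coeff_C_mul, coeff_X_pow]
      split_ifs with h3 h4 h4
      · rw [eval_mul, eval_C, eval_pow, eval_X, mul_one, ← pow_mul, mul_comm j]
      · exact absurd h3.symm h4
      · exact absurd h4.symm h3
      · rw [eval_zero, mul_zero]
    · rw [coeff_C_mul, coeff_X]
      split_ifs with h3 h4 h4
      · rw [mul_one]
      · exact absurd h3.symm h4
      · exact absurd h4.symm h3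
      · rw [mul_zero]
  refine (card_le_card_of_injOn (fun j => (g : ZMod p) ^ j) hroot ?_).trans
    ((Multiset.toFinset_card_le _).trans ((card_roots' _).trans hQd))
  intro x hx y hy hxy
  rw [mem_coe, mem_filter, mem_range] at hx hy
  exact pow_injOn_Iio_orderOf hx.1 hy.1 hxy

lemma order_facts (p g : ℕ) [Fact p.Prime] (hg : ¬ p ∣ g) :
    1 ≤ orderOf (g : ZMod p) ∧ orderOf (g : ZMod p) < p := by
  have hp := (Fact.out : p.Prime)
  have h0 : (g : ZMod p) ≠ 0 := by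
    rw [Ne, ZMod.natCast_eq_zero_iff]
    exact hg
  have h1 : orderOf (g : ZMod p) ∣ p - 1 :=
    orderOf_dvd_of_pow_eq_one (ZMod.pow_card_sub_one_eq_one h0)
  have h2 : 0 < p - 1 := by have := hp.two_le; omega
  have h3 := Nat.le_of_dvd h2 h1
  have h4 := Nat.pos_of_dvd_of_pos h1 h2
  omega

/-- the theorem for the residues of `x ^ u * g ^ (v x)` -/
theorem expo (k : ℕ) (δ : ℝ) (hδ : 0 < δ) (hδ1 : δ ≤ 1) :
    ∃ κ : ℝ, 0 < κ ∧ ∃ p₀ : ℕ, ∀ p : ℕ, p.Prime → p₀ ≤ p →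
    ∀ g : ℕ, ¬ p ∣ g → ∀ d J : ℕ, 1 ≤ d → 1 ≤ J →
    ∀ u v : Fin k → ℕ, (∀ i, 1 ≤ u i) → (∀ i, u i ≤ d) → (∀ i, v i ≤ J) →
    (∀ i j, u i = u j → v i = v j → i = j) → (∀ i, ¬ (u i = 1 ∧ v i = 0)) →
    ∀ (a L : ℕ) (c D : Fin k → ℕ), L ≤ p * orderOf (g : ZMod p) → (∀ i, c i + D i ≤ p) →
    (p : ℝ) ^ δ ≤ L → (∀ i, (p : ℝ) ^ δ ≤ D i) →
    (J * p + (d - 1) * orderOf (g : ZMod p) * Real.sqrt p) * (p : ℝ) ^ ((k : ℝ) + δ) ≤
      L * ∏ i, (D i : ℝ) →
    (L * ∏ i, (D i : ℝ)) * (p : ℝ) ^ (-((k : ℝ) + δ)) ≤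
      (Places k p κ ((p : ℝ) ^ δ) (fun x i => x ^ u i * g ^ (v i * x) % p) a L c D).ncard := by
  obtain ⟨κ, hκ, p₀, hmain⟩ := final k 1 δ hδ hδ1
  refine ⟨κ, hκ, p₀, ?_⟩
  intro p hp hp₀ g hg d J hd1 hJ1 u v hu1 hud hvJ hinj h10 a L c D hL hcD hLp hDp hLD
  have : Fact p.Prime := ⟨hp⟩
  obtain ⟨ht1, htp⟩ := order_facts p g hg
  have h1 := hmain p hp hp₀ (orderOf (g : ZMod p)) ht1 (by rw [pow_one]; exact htp.le)
    (fun h => absurd (Nat.le_of_dvd ht1 h) (by omega)) d hd1 (fun i => mono p g (u i) (v i))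
    (fun i j => (mono_degree p g _ _ j).trans (hud i)) J hJ1
    (fun h hh c => count_le p g J u v hu1 hvJ hinj h10 h hh c) a L c D hL hcD hLp hDp hLD
  have h2 : (fun x i => res p (orderOf (g : ZMod p)) (mono p g (u i) (v i)) x) =
      (fun x (i : Fin k) => x ^ u i * g ^ (v i * x) % p) := by
    funext x i
    exact mono_res p g (u i) (v i) x
  rw [h2] at h1
  exact h1

/-! ## A fixed base -/

lemma card_primeFactors_le (n m : ℕ) (hn : n ≠ 0) (h : n ≤ 2 ^ m) : n.primeFactors.card ≤ m := by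
  have h1 : 2 ^ n.primeFactors.card ≤ ∏ q ∈ n.primeFactors, q :=
    Finset.pow_card_le_prod _ _ _ fun q hq => (Nat.prime_of_mem_primeFactors hq).two_le
  have h2 : ∏ q ∈ n.primeFactors, q ≤ n :=
    Nat.le_of_dvd (Nat.pos_of_ne_zero hn) (Nat.prod_primeFactors_dvd n)
  exact (Nat.pow_le_pow_iff_right (by norm_num)).1 (h1.trans (h2.trans h))

/-- few primes have a small order of `g` -/
lemma small_order (g : ℕ) (hg : 2 ≤ g) (N : ℕ) :
    ({p : ℕ | p.Prime ∧ ¬ p ∣ g ∧ orderOf (g : ZMod p) ≤ N} : Set ℕ).Finite ∧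
    ({p : ℕ | p.Prime ∧ ¬ p ∣ g ∧ orderOf (g : ZMod p) ≤ N} : Set ℕ).ncard ≤ N * (N * g) := by
  have hsub : ({p : ℕ | p.Prime ∧ ¬ p ∣ g ∧ orderOf (g : ZMod p) ≤ N} : Set ℕ) ⊆
      (((Icc 1 N).biUnion fun n => (g ^ n - 1).primeFactors : Finset ℕ) : Set ℕ) := by
    rintro p ⟨hp, hpg, hN⟩
    have : Fact p.Prime := ⟨hp⟩
    obtain ⟨h1, h2⟩ := order_facts p g hpg
    rw [mem_coe, mem_biUnion]
    refine ⟨orderOf (g : ZMod p), mem_Icc.2 ⟨h1, hN⟩, ?_⟩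
    have h4 : 2 ≤ g ^ orderOf (g : ZMod p) := hg.trans (Nat.le_self_pow (by omega) g)
    rw [Nat.mem_primeFactors]
    refine ⟨hp, ?_, by omega⟩
    rw [← ZMod.natCast_eq_zero_iff, Nat.cast_sub (by omega)]
    push_cast
    rw [pow_orderOf_eq_one, sub_self]
  refine ⟨(Finset.finite_toSet _).subset hsub, ?_⟩
  refine (Set.ncard_le_ncard hsub (Finset.finite_toSet _)).trans ?_
  rw [Set.ncard_coe_finset]
  refine card_biUnion_le.trans ?_
  calc ∑ n ∈ Icc 1 N, (g ^ n - 1).primeFactors.card ≤ ∑ n ∈ Icc 1 N, N * g := by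
        refine Finset.sum_le_sum fun n hn => ?_
        rw [mem_Icc] at hn
        have h4 : 2 ≤ g ^ n := hg.trans (Nat.le_self_pow (by omega) g)
        refine card_primeFactors_le _ _ (by omega) ?_
        calc g ^ n - 1 ≤ g ^ n := Nat.sub_le _ _
          _ ≤ (2 ^ g) ^ n := Nat.pow_le_pow_left Nat.lt_two_pow_self.le _
          _ = 2 ^ (g * n) := by rw [← pow_mul]
          _ ≤ 2 ^ (N * g) := Nat.pow_le_pow_right (by norm_num) (by nlinarith [hn.2])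
    _ = N * (N * g) := by rw [sum_const, Nat.card_Icc, smul_eq_mul, Nat.add_sub_cancel]

lemma Places_mono (k : ℕ) (P κ : ℝ) {z z' : ℝ} (hz : z ≤ z') (n : ℕ → Fin k → ℕ) (a L : ℕ)
    (c D : Fin k → ℕ) : (Places k P κ z n a L c D).ncard ≤ (Places k P κ z' n a L c D).ncard := by
  refine Set.ncard_le_ncard ?_ ?_
  · rintro x ⟨h1, h2, h3, h4⟩
    refine ⟨h1, h2, h3, fun m hm => ?_⟩
    obtain ⟨q, hq, hqz, h5⟩ := h4 m hm
    exact ⟨q, hq, hqz.trans hz, h5⟩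
  · refine (Set.finite_Ico a (a + L)).subset ?_
    rintro x ⟨h1, h2, -⟩
    exact ⟨h1, h2⟩

/-- the theorem for a fixed base and almost all primes -/
theorem fixed (k : ℕ) (u v : Fin k → ℕ) (hu1 : ∀ i, 1 ≤ u i)
    (hinj : ∀ i j, u i = u j → v i = v j → i = j) (h10 : ∀ i, ¬ (u i = 1 ∧ v i = 0))
    (g : ℕ) (hg : 2 ≤ g) (ε : ℝ) (hε : 0 < ε) (hε1 : ε ≤ 1) :
    ∃ κ : ℝ, 0 < κ ∧ ∃ η : ℝ, 0 < η ∧ ∃ A : ℝ, ∀ Y : ℝ, 1 ≤ Y →
    ({p : ℕ | p.Prime ∧ (p : ℝ) ≤ Y ∧ ¬ (¬ p ∣ g ∧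
      ∀ (a L : ℕ) (c D : Fin k → ℕ), L ≤ p * orderOf (g : ZMod p) → (∀ i, c i + D i ≤ p) →
      orderOf (g : ZMod p) * (p : ℝ) ^ ((k : ℝ) + 1 - η) ≤ L * ∏ i, (D i : ℝ) →
      (L * ∏ i, (D i : ℝ)) * (p : ℝ) ^ (-((k : ℝ) + ε)) ≤
      (Places k p κ ((p : ℝ) ^ ε) (fun x i => x ^ u i * g ^ (v i * x) % p) a L c D).ncard)}.ncard : ℝ)
      ≤ A * Y ^ ε := by
  classical
  set δ : ℝ := ε / 8 with hδ
  have hδ0 : 0 < δ := by rw [hδ]; positivity
  obtain ⟨κ, hκ, p₀, hmain⟩ := expo k δ hδ0 (by rw [hδ]; linarith)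
  set d : ℕ := 1 + ∑ i, u i with hd
  set J : ℕ := 1 + ∑ i, v i with hJ
  have hud : ∀ i, u i ≤ d := fun i => by
    have := Finset.single_le_sum (f := u) (fun i _ => Nat.zero_le _) (mem_univ i)
    omega
  have hvJ : ∀ i, v i ≤ J := fun i => by
    have := Finset.single_le_sum (f := v) (fun i _ => Nat.zero_le _) (mem_univ i)
    omega
  obtain ⟨P₁, hP₁⟩ := eventually_atTop.mp
    (((tendsto_rpow_atTop (show (0 : ℝ) < ε / 4 by positivity)).eventually_ge_atTop (2 * J)).and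
    ((tendsto_rpow_atTop (show (0 : ℝ) < 1 / 4 by norm_num)).eventually_ge_atTop (2 * (d - 1))))
  set p₁ : ℕ := max p₀ ⌈P₁⌉₊ with hp₁
  refine ⟨κ, hκ, δ, hδ0, p₁ + g + 1 + g, fun Y hY => ?_⟩
  set N : ℕ := ⌊Y ^ (ε / 2)⌋₊ with hN
  obtain ⟨hfin, hcard⟩ := small_order g hg N
  have hY0 : 0 < Y := by linarith
  have hsub : {p : ℕ | p.Prime ∧ (p : ℝ) ≤ Y ∧ ¬ (¬ p ∣ g ∧
      ∀ (a L : ℕ) (c D : Fin k → ℕ), L ≤ p * orderOf (g : ZMod p) → (∀ i, c i + D i ≤ p) →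
      orderOf (g : ZMod p) * (p : ℝ) ^ ((k : ℝ) + 1 - δ) ≤ L * ∏ i, (D i : ℝ) →
      (L * ∏ i, (D i : ℝ)) * (p : ℝ) ^ (-((k : ℝ) + ε)) ≤
      (Places k p κ ((p : ℝ) ^ ε) (fun x i => x ^ u i * g ^ (v i * x) % p) a L c D).ncard)} ⊆
      ((range (p₁ + g + 1) : Finset ℕ) : Set ℕ) ∪
        {p : ℕ | p.Prime ∧ ¬ p ∣ g ∧ orderOf (g : ZMod p) ≤ N} := by
    rintro p ⟨hp, hpY, hbad⟩
    rw [Set.mem_union, mem_coe, mem_range]
    by_contra hcon
    push Not at hcon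
    obtain ⟨hpl, hord⟩ := hcon
    apply hbad
    have hp0g : ¬ p ∣ g := fun h => absurd (Nat.le_of_dvd (by omega) h) (by omega)
    refine ⟨hp0g, ?_⟩
    have : Fact p.Prime := ⟨hp⟩
    have hp1 : (1 : ℝ) < p := by exact_mod_cast hp.one_lt
    have hp0 : (0 : ℝ) < p := by linarith
    set t : ℕ := orderOf (g : ZMod p) with ht
    have htN : N < t := by
      by_contra hcon
      push Not at hcon
      exact hord ⟨hp, hp0g, hcon⟩
    have ht1 : (1 : ℝ) ≤ t := by exact_mod_cast (by omega : 1 ≤ t)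
    have htY : (p : ℝ) ^ (ε / 2) ≤ t := by
      have h1 : Y ^ (ε / 2) < t := (Nat.floor_lt (by positivity)).1 htN
      have h2 : (p : ℝ) ^ (ε / 2) ≤ Y ^ (ε / 2) := Real.rpow_le_rpow hp0.le hpY (by positivity)
      linarith
    intro a L c D hL hcD hV
    have hpP : P₁ ≤ (p : ℝ) := by
      refine (Nat.le_ceil _).trans ?_
      exact_mod_cast (by omega : ⌈P₁⌉₊ ≤ p)
    obtain ⟨hJp, hdp⟩ := hP₁ p hpP
    have hLR : (L : ℝ) ≤ p * t := by exact_mod_cast hL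
    have hDR : ∀ i, (D i : ℝ) ≤ p := fun i => by
      have := hcD i
      exact_mod_cast (by omega : D i ≤ p)
    have hD0 : ∀ i, (0 : ℝ) ≤ D i := fun i => Nat.cast_nonneg _
    have hL0 : (0 : ℝ) ≤ L := Nat.cast_nonneg _
    have hprod : ∏ i, (D i : ℝ) ≤ (p : ℝ) ^ k := by
      calc ∏ i, (D i : ℝ) ≤ ∏ _i : Fin k, (p : ℝ) :=
            prod_le_prod (fun i _ => hD0 i) fun i _ => hDR i
        _ = (p : ℝ) ^ k := by simp
    have hpow : (p : ℝ) ^ ((k : ℝ) + 1 - δ) = (p : ℝ) ^ k * (p : ℝ) ^ (1 - δ) := by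
      rw [← Real.rpow_natCast, ← Real.rpow_add hp0]
      congr 1
      ring
    have hpk : (0 : ℝ) < (p : ℝ) ^ k := by positivity
    have hmono : ∀ x y : ℝ, x ≤ y → (p : ℝ) ^ x ≤ (p : ℝ) ^ y := fun x y h =>
      Real.rpow_le_rpow_of_exponent_le hp1.le h
    have hδ1 : δ ≤ 1 - δ := by rw [hδ]; linarith
    have hLδ : (p : ℝ) ^ δ ≤ L := by
      have h1 : (p : ℝ) ^ (1 - δ) * (p : ℝ) ^ k ≤ L * (p : ℝ) ^ k := by
        calc (p : ℝ) ^ (1 - δ) * (p : ℝ) ^ k = 1 * ((p : ℝ) ^ k * (p : ℝ) ^ (1 - δ)) := by ring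
          _ ≤ t * ((p : ℝ) ^ k * (p : ℝ) ^ (1 - δ)) :=
            mul_le_mul_of_nonneg_right ht1 (by positivity)
          _ ≤ L * ∏ i, (D i : ℝ) := by rw [← hpow]; exact hV
          _ ≤ L * (p : ℝ) ^ k := mul_le_mul_of_nonneg_left hprod hL0
      exact (hmono _ _ hδ1).trans (le_of_mul_le_mul_right h1 hpk)
    have hDδ : ∀ i, (p : ℝ) ^ δ ≤ D i := by
      intro i
      have hk : 1 ≤ k := Fin.pos i
      have h1 : ∏ j, (D j : ℝ) ≤ D i * (p : ℝ) ^ (k - 1) := by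
        rw [← mul_prod_erase univ (fun j => (D j : ℝ)) (mem_univ i)]
        refine mul_le_mul_of_nonneg_left ?_ (hD0 i)
        calc ∏ j ∈ univ.erase i, (D j : ℝ) ≤ ∏ _j ∈ univ.erase i, (p : ℝ) :=
              prod_le_prod (fun i _ => hD0 i) fun i _ => hDR i
          _ = (p : ℝ) ^ (k - 1) := by
              rw [prod_const, card_erase_of_mem (mem_univ i), card_univ, Fintype.card_fin]
      have h2 : (p : ℝ) ^ (1 - δ) * (t * (p : ℝ) ^ k) ≤ D i * (t * (p : ℝ) ^ k) := by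
        calc (p : ℝ) ^ (1 - δ) * (t * (p : ℝ) ^ k) = t * ((p : ℝ) ^ k * (p : ℝ) ^ (1 - δ)) := by ring
          _ ≤ L * ∏ i, (D i : ℝ) := by rw [← hpow]; exact hV
          _ ≤ (p * t) * (D i * (p : ℝ) ^ (k - 1)) :=
              mul_le_mul hLR h1 (prod_nonneg fun i _ => hD0 i) (by positivity)
          _ = D i * (t * (p : ℝ) ^ (k - 1 + 1)) := by ring
          _ = D i * (t * (p : ℝ) ^ k) := by rw [Nat.sub_add_cancel hk]
      exact (hmono _ _ hδ1).trans (le_of_mul_le_mul_right h2 (by positivity))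
    have hd1' : (1 : ℝ) ≤ d := by
      rw [hd]; push_cast
      have : (0 : ℝ) ≤ ∑ i, (u i : ℝ) := sum_nonneg fun i _ => Nat.cast_nonneg _
      linarith
    have hvol : (J * p + (d - 1) * t * Real.sqrt p) * (p : ℝ) ^ ((k : ℝ) + δ) ≤
        L * ∏ i, (D i : ℝ) := by
      refine le_trans ?_ hV
      have h1 : (p : ℝ) ^ ((k : ℝ) + 1 - δ) = ((p : ℝ) * (p : ℝ) ^ (-(2 * δ))) *
          (p : ℝ) ^ ((k : ℝ) + δ) := by
        rw [show (k : ℝ) + 1 - δ = 1 + -(2 * δ) + (k + δ) by ring, Real.rpow_add hp0 _ ((k : ℝ) + δ),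
          Real.rpow_add hp0, Real.rpow_one]
      rw [h1, ← mul_assoc]
      refine mul_le_mul_of_nonneg_right ?_ (by positivity)
      -- `J p ≤ t p ^ (1 - 2 δ) / 2`, `(d - 1) t √p ≤ t p ^ (1 - 2 δ) / 2`
      have h2 : (J : ℝ) ≤ t * (p : ℝ) ^ (-(2 * δ)) / 2 := by
        have h3 : (p : ℝ) ^ (ε / 2) * (p : ℝ) ^ (-(2 * δ)) = (p : ℝ) ^ (ε / 4) := by
          rw [← Real.rpow_add hp0]; congr 1; rw [hδ]; ring
        have h4 : (p : ℝ) ^ (ε / 2) * (p : ℝ) ^ (-(2 * δ)) ≤ t * (p : ℝ) ^ (-(2 * δ)) :=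
          mul_le_mul_of_nonneg_right htY (by positivity)
        rw [h3] at h4
        linarith
      have h5 : ((d : ℝ) - 1) * Real.sqrt p ≤ p * (p : ℝ) ^ (-(2 * δ)) / 2 := by
        have h6 : (p : ℝ) * (p : ℝ) ^ (-(2 * δ)) = (p : ℝ) ^ (1 - 2 * δ) := by
          rw [sub_eq_add_neg, Real.rpow_add hp0, Real.rpow_one]
        have h7 : (p : ℝ) ^ (3 / 4 : ℝ) ≤ (p : ℝ) ^ (1 - 2 * δ) :=
          hmono _ _ (by rw [hδ]; linarith)
        have h8 : (p : ℝ) ^ (3 / 4 : ℝ) = (p : ℝ) ^ (1 / 4 : ℝ) * Real.sqrt p := by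
          rw [Real.sqrt_eq_rpow, ← Real.rpow_add hp0]; norm_num
        have h9 : 2 * ((d : ℝ) - 1) * Real.sqrt p ≤ (p : ℝ) ^ (1 / 4 : ℝ) * Real.sqrt p :=
          mul_le_mul_of_nonneg_right hdp (Real.sqrt_nonneg _)
        rw [h6]
        linarith
      calc (J : ℝ) * p + (d - 1) * t * Real.sqrt p
          = J * p + t * ((d - 1) * Real.sqrt p) := by ring
        _ ≤ (t * (p : ℝ) ^ (-(2 * δ)) / 2) * p + t * (p * (p : ℝ) ^ (-(2 * δ)) / 2) :=
            add_le_add (mul_le_mul_of_nonneg_right h2 hp0.le)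
              (mul_le_mul_of_nonneg_left h5 (by linarith))
        _ = _ := by ring
    have hfinal := hmain p hp (by omega) g hp0g d J (by omega) (by omega) u v hu1 hud hvJ hinj h10
      a L c D hL hcD hLδ hDδ hvol
    have hεδ : δ ≤ ε := by rw [hδ]; linarith
    calc (L * ∏ i, (D i : ℝ)) * (p : ℝ) ^ (-((k : ℝ) + ε))
        ≤ (L * ∏ i, (D i : ℝ)) * (p : ℝ) ^ (-((k : ℝ) + δ)) := by
          refine mul_le_mul_of_nonneg_left (hmono _ _ (by linarith)) ?_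
          exact mul_nonneg hL0 (prod_nonneg fun i _ => hD0 i)
      _ ≤ _ := hfinal
      _ ≤ _ := by
        exact_mod_cast Places_mono k p κ (hmono _ _ hεδ) _ a L c D
  have h1 := (Set.ncard_le_ncard hsub ((Finset.finite_toSet _).union hfin)).trans
    (Set.ncard_union_le _ _)
  rw [Set.ncard_coe_finset, card_range] at h1
  have h2 : (N : ℝ) ≤ Y ^ (ε / 2) := Nat.floor_le (by positivity)
  have h3 : (N : ℝ) * (N * g) ≤ g * Y ^ ε := by
    have h4 : Y ^ ε = Y ^ (ε / 2) * Y ^ (ε / 2) := by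
      rw [← Real.rpow_add hY0]; congr 1; ring
    have h5 : (N : ℝ) * N ≤ Y ^ ε := by
      rw [h4]
      exact mul_le_mul h2 h2 (Nat.cast_nonneg _) (by positivity)
    have hg0 : (0 : ℝ) ≤ g := Nat.cast_nonneg _
    nlinarith
  have h6 : 1 ≤ Y ^ ε := Real.one_le_rpow hY hε.le
  have h7 : ((p₁ + g + 1 : ℕ) : ℝ) ≤ (p₁ + g + 1) * Y ^ ε := by
    push_cast
    have : (0 : ℝ) ≤ p₁ + g + 1 := by positivity
    nlinarith
  have h8 : ((p₁ + g + 1 + N * (N * g) : ℕ) : ℝ) ≤ (p₁ + g + 1 + g) * Y ^ ε := by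
    push_cast at h7 ⊢
    linarith
  refine le_trans ?_ h8
  exact_mod_cast h1.trans (Nat.add_le_add_left hcard _)

end Pool.Agent.N448.PC
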