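import Pool.Agent.N286.FQ.Sum
import Pool.Agent.Y951.WP.Main

set_option autoImplicit false

/-! # Complete exponential sums with polynomials whose coefficients are periodic -/

namespace Pool.Agent.N448.PC

open Finset Polynomial
open Pool.Agent.Helper170.Weyl (e e_add norm_e)
open Pool.Agent.N286.DE (psi_sum e_zero)
open Pool.Agent.N286.FQ (e_nat)

variable {p : ℕ}

lemma sum_split (t : ℕ) (ht : 0 < t) (f : ℕ → ℂ) :
    ∑ z ∈ range (p * t), f z = ∑ j ∈ range t, ∑ s ∈ range p, f (j + t * s) := by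
  rw [← sum_product']
  refine sum_nbij' (fun z => (z % t, z / t)) (fun w => w.1 + t * w.2) ?_ ?_ ?_ ?_ ?_
  · intro z hz
    rw [mem_range] at hz
    rw [mem_product, mem_range, mem_range]
    exact ⟨Nat.mod_lt _ ht, Nat.div_lt_of_lt_mul (by rw [mul_comm]; exact hz)⟩
  · intro w hw
    rw [mem_product, mem_range, mem_range] at hw
    rw [mem_range]
    have h1 : w.2 + 1 ≤ p := hw.2
    calc w.1 + t * w.2 < t + t * w.2 := by omega
      _ = t * (w.2 + 1) := by ring
      _ ≤ t * p := Nat.mul_le_mul_left _ h1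
      _ = p * t := by ring
  · intro z _
    exact Nat.mod_add_div z t
  · intro w hw
    rw [mem_product, mem_range, mem_range] at hw
    refine Prod.ext ?_ ?_
    · show (w.1 + t * w.2) % t = w.1
      rw [Nat.add_mul_mod_self_left, Nat.mod_eq_of_lt hw.1]
    · show (w.1 + t * w.2) / t = w.2
      rw [Nat.add_mul_div_left _ _ ht, Nat.div_eq_of_lt hw.1, zero_add]
  · intro z _
    rw [Nat.mod_add_div z t]

variable [Fact p.Prime]

lemma sum_range_zmod (F : ZMod p → ℂ) : ∑ s ∈ range p, F (s : ZMod p) = ∑ y : ZMod p, F y := by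
  have hp := (Fact.out : p.Prime)
  refine sum_nbij' (fun s => (s : ZMod p)) (fun y => y.val) ?_ ?_ ?_ ?_ ?_
  · intro s _
    exact mem_univ _
  · intro y _
    exact mem_range.2 (ZMod.val_lt y)
  · intro s hs
    show ((s : ZMod p)).val = s
    rw [ZMod.val_natCast, Nat.mod_eq_of_lt (mem_range.1 hs)]
  · intro y _
    exact ZMod.natCast_zmod_val y
  · intro s _
    rfl

/-- The least residue modulo `p` of the value at `x` of the polynomial with coefficients of
period `t`. -/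
def res (p t : ℕ) (f : ℕ → (ZMod p)[X]) (x : ℕ) : ℕ := ((f (x % t)).eval (x : ZMod p)).val

lemma res_lt (t : ℕ) (f : ℕ → (ZMod p)[X]) (x : ℕ) : res p t f x < p := ZMod.val_lt _

variable {k : ℕ} (t : ℕ) (f : Fin k → ℕ → (ZMod p)[X]) (b c : ℕ) (h : Fin k → ℕ)

/-- the polynomial in a class modulo `t` -/
noncomputable def G (j : ℕ) : (ZMod p)[X] :=
  (∑ i, C (h i : ZMod p) * f i ((b + j) % t)) + C ((c : ZMod p) * (t : ZMod p)⁻¹) * X

/-- the terms of the sum -/
lemma term_eq (ht : 0 < t) (htp : (t : ZMod p) ≠ 0) (j s : ℕ) :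
    e ((c : ℝ) * ((j + t * s : ℕ) : ℝ) / ((p * t : ℕ) : ℝ)) *
      ∏ i, e ((h i : ℝ) * ((res p t (f i) (b + (j + t * s)) : ℕ) : ℝ) / p) =
    (e ((c : ℝ) * (j : ℝ) / ((p * t : ℕ) : ℝ)) *
      ZMod.stdAddChar (N := p) (-((c : ZMod p) * (t : ZMod p)⁻¹ * ((b + j : ℕ) : ZMod p)))) *
      ZMod.stdAddChar (N := p) ((G t f b c h j).eval
        (((b + j : ℕ) : ZMod p) + (t : ZMod p) * (s : ZMod p))) := by
  have hp0 : (p : ℝ) ≠ 0 := by exact_mod_cast (Fact.out : p.Prime).ne_zero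
  have ht0 : (t : ℝ) ≠ 0 := by exact_mod_cast ht.ne'
  have h1 : e ((c : ℝ) * ((j + t * s : ℕ) : ℝ) / ((p * t : ℕ) : ℝ)) =
      e ((c : ℝ) * (j : ℝ) / ((p * t : ℕ) : ℝ)) *
        ZMod.stdAddChar (N := p) ((c : ZMod p) * (s : ZMod p)) := by
    rw [← e_nat c s, ← e_add]
    congr 1
    push_cast
    field_simp
  have h2 : ∀ i, e ((h i : ℝ) * ((res p t (f i) (b + (j + t * s)) : ℕ) : ℝ) / p) =
      ZMod.stdAddChar (N := p) ((h i : ZMod p) * (f i ((b + j) % t)).eval
        (((b + j : ℕ) : ZMod p) + (t : ZMod p) * (s : ZMod p))) := by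
    intro i
    rw [e_nat]
    unfold res
    rw [ZMod.natCast_zmod_val]
    have h3 : (b + (j + t * s)) % t = (b + j) % t := by
      rw [← add_assoc, Nat.add_mul_mod_self_left]
    have h4 : ((b + (j + t * s) : ℕ) : ZMod p) =
        ((b + j : ℕ) : ZMod p) + (t : ZMod p) * (s : ZMod p) := by
      push_cast
      ring
    rw [h3, h4]
  rw [h1, prod_congr rfl fun i _ => h2 i, ← psi_sum, mul_assoc, mul_assoc, ← AddChar.map_add_eq_mul,
    ← AddChar.map_add_eq_mul]
  congr 2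
  unfold G
  simp only [eval_add, eval_mul, eval_C, eval_X, eval_finsetSum]
  field_simp
  ring

/-- the sum over a class modulo `t` -/
lemma class_eq (ht : 0 < t) (htp : (t : ZMod p) ≠ 0) (j : ℕ) :
    ∑ s ∈ range p, e ((c : ℝ) * ((j + t * s : ℕ) : ℝ) / ((p * t : ℕ) : ℝ)) *
      ∏ i, e ((h i : ℝ) * ((res p t (f i) (b + (j + t * s)) : ℕ) : ℝ) / p) =
    (e ((c : ℝ) * (j : ℝ) / ((p * t : ℕ) : ℝ)) *
      ZMod.stdAddChar (N := p) (-((c : ZMod p) * (t : ZMod p)⁻¹ * ((b + j : ℕ) : ZMod p)))) *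
      ∑ y : ZMod p, ZMod.stdAddChar (N := p) ((G t f b c h j).eval y) := by
  rw [sum_congr rfl fun s _ => term_eq t f b c h ht htp j s, ← mul_sum]
  congr 1
  rw [sum_range_zmod (fun z => ZMod.stdAddChar (N := p) ((G t f b c h j).eval
        (((b + j : ℕ) : ZMod p) + (t : ZMod p) * z)))]
  refine Fintype.sum_equiv ((Equiv.mulLeft₀ (t : ZMod p) htp).trans
    (Equiv.addLeft ((b + j : ℕ) : ZMod p))) _ _ fun z => rfl

lemma class_norm (ht : 0 < t) (htp : (t : ZMod p) ≠ 0) (j : ℕ) :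
    ‖∑ s ∈ range p, e ((c : ℝ) * ((j + t * s : ℕ) : ℝ) / ((p * t : ℕ) : ℝ)) *
      ∏ i, e ((h i : ℝ) * ((res p t (f i) (b + (j + t * s)) : ℕ) : ℝ) / p)‖ =
    ‖∑ y : ZMod p, (ZMod.stdAddChar (N := p) ((G t f b c h j).eval y) : ℂ)‖ := by
  rw [class_eq t f b c h ht htp j, norm_mul, norm_mul, norm_e, AddChar.norm_apply, one_mul, one_mul]

/-- **the complete sum modulo `p t`** -/
theorem sum_le (ht : 0 < t) (htp : (t : ZMod p) ≠ 0) (d Z : ℕ) (hd1 : 1 ≤ d) (hdp : d < p)
    (hd : ∀ i j, (f i j).natDegree ≤ d)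
    (hZ : ∀ h : Fin k → ZMod p, h ≠ 0 → ∀ c : ZMod p,
      ((range t).filter fun j => ((∑ i, C (h i) * f i j) + C c * X).natDegree = 0).card ≤ Z)
    (hh : ∀ i, h i < p) (h0 : h ≠ 0) :
    ‖∑ z ∈ range (p * t), e ((c : ℝ) * (z : ℝ) / ((p * t : ℕ) : ℝ)) *
      ∏ i, e ((h i : ℝ) * ((res p t (f i) (b + z) : ℕ) : ℝ) / p)‖ ≤
        Z * p + ((d - 1 : ℕ) : ℝ) * t * Real.sqrt p := by
  classical
  have hp := (Fact.out : p.Prime)
  have hh' : (fun i => (h i : ZMod p)) ≠ 0 := Pool.Agent.N286.DE.cast_ne_zero h hh h0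
  set bad : Finset ℕ := (range t).filter fun j => (G t f b c h j).natDegree = 0 with hbad
  have hbadZ : bad.card ≤ Z := by
    refine le_trans ?_ (hZ _ hh' ((c : ZMod p) * (t : ZMod p)⁻¹))
    refine card_le_card_of_injOn (fun j => (b + j) % t) ?_ ?_
    · intro j hj
      rw [hbad, mem_coe, mem_filter] at hj
      rw [mem_coe, mem_filter, mem_range]
      exact ⟨Nat.mod_lt _ ht, hj.2⟩
    · intro x hx y hy hxy
      rw [hbad, mem_coe, mem_filter, mem_range] at hx hy
      have h1 : b + x ≡ b + y [MOD t] := hxy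
      have h2 : x ≡ y [MOD t] := Nat.ModEq.add_left_cancel' b h1
      exact Nat.ModEq.eq_of_lt_of_lt h2 hx.1 hy.1
  have hdeg : ∀ j, (G t f b c h j).natDegree ≤ d := by
    intro j
    unfold G
    refine (natDegree_add_le _ _).trans (max_le ?_ ?_)
    · exact natDegree_sum_le_of_forall_le _ _ fun i _ => (natDegree_C_mul_le _ _).trans (hd _ _)
    · exact (natDegree_C_mul_le _ _).trans (natDegree_X_le.trans hd1)
  have hcls : ∀ j ∈ range t, ‖∑ s ∈ range p, e ((c : ℝ) * ((j + t * s : ℕ) : ℝ) / ((p * t : ℕ) : ℝ)) *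
      ∏ i, e ((h i : ℝ) * ((res p t (f i) (b + (j + t * s)) : ℕ) : ℝ) / p)‖ ≤
      (if j ∈ bad then (p : ℝ) else 0) + ((d - 1 : ℕ) : ℝ) * Real.sqrt p := by
    intro j hj
    rw [class_norm t f b c h ht htp j]
    split_ifs with hjb
    · refine (norm_sum_le _ _).trans ?_
      have h1 : ∀ y ∈ (univ : Finset (ZMod p)),
          ‖(ZMod.stdAddChar (N := p) ((G t f b c h j).eval y) : ℂ)‖ = 1 :=
        fun y _ => AddChar.norm_apply _ _
      rw [sum_congr rfl h1, sum_const, card_univ, ZMod.card, nsmul_eq_mul, mul_one]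
      have : (0 : ℝ) ≤ ((d - 1 : ℕ) : ℝ) * Real.sqrt p := by positivity
      linarith
    · rw [hbad, mem_filter, not_and] at hjb
      have h1 := hjb hj
      have h2 := Pool.Agent.Y951.WP.weil_le p (G t f b c h j) (by
        intro hdv
        exact absurd (Nat.le_of_dvd (Nat.pos_of_ne_zero h1) hdv) (by have := hdeg j; omega))
        (ZMod.isPrimitive_stdAddChar p)
      rw [zero_add]
      refine h2.trans (mul_le_mul_of_nonneg_right ?_ (Real.sqrt_nonneg _))
      have := hdeg j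
      exact_mod_cast (by omega : (G t f b c h j).natDegree - 1 ≤ d - 1)
  rw [sum_split t ht]
  refine (norm_sum_le _ _).trans ((Finset.sum_le_sum hcls).trans ?_)
  rw [sum_add_distrib, ← sum_filter, sum_const, sum_const, card_range, nsmul_eq_mul, nsmul_eq_mul]
  have h3 : (range t).filter (fun j => j ∈ bad) = bad := by
    ext j
    rw [mem_filter, hbad, mem_filter]
    tauto
  rw [h3]
  have h4 : (bad.card : ℝ) ≤ Z := by exact_mod_cast hbadZ
  have h5 : (bad.card : ℝ) * p ≤ Z * p := mul_le_mul_of_nonneg_right h4 (Nat.cast_nonneg _)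
  nlinarith

end Pool.Agent.N448.PC
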