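import Pool.Agent.N286.DE.Main
import Pool.Agent.N448.PC.Sum

set_option autoImplicit false

/-! # Record gaps at polynomials with periodic coefficients -/

namespace Pool.Agent.N448.PC

open Finset Filter Polynomial
open Pool.Agent.H256R2.SC (ff)
open Pool.Agent.N286.DE (main)

/-- the places `x` in `[a, a + L)` with all `n x i` in the intervals, `x` and all `n x i` far
from primes -/
def Places (k : ℕ) (P κ z : ℝ) (n : ℕ → Fin k → ℕ) (a L : ℕ) (c D : Fin k → ℕ) : Set ℕ :=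
  {x : ℕ | a ≤ x ∧ x < a + L ∧ (∀ i, c i ≤ n x i ∧ n x i < c i + D i) ∧
        ∀ m : ℤ, (|(m : ℝ) - x| ≤ κ * ff P ∨ ∃ i, |(m : ℝ) - n x i| ≤ κ * ff P) →
          ∃ q : ℕ, q.Prime ∧ (q : ℝ) ≤ z ∧ (q : ℤ) ∣ m ∧ (q : ℤ) < m}

/-- the theorem for polynomials with periodic coefficients -/
theorem final (k K : ℕ) (δ : ℝ) (hδ : 0 < δ) (hδ1 : δ ≤ 1) :
    ∃ κ : ℝ, 0 < κ ∧ ∃ p₀ : ℕ, ∀ p : ℕ, p.Prime → p₀ ≤ p →
    ∀ t : ℕ, 1 ≤ t → t ≤ p ^ K → ¬ p ∣ t → ∀ d : ℕ, 1 ≤ d →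
    ∀ f : Fin k → ℕ → (ZMod p)[X], (∀ i j, (f i j).natDegree ≤ d) →
    ∀ Z : ℕ, 1 ≤ Z → (∀ h : Fin k → ZMod p, h ≠ 0 → ∀ c : ZMod p,
      ((range t).filter fun j => ((∑ i, C (h i) * f i j) + C c * X).natDegree = 0).card ≤ Z) →
    ∀ (a L : ℕ) (c D : Fin k → ℕ), L ≤ p * t → (∀ i, c i + D i ≤ p) →
    (p : ℝ) ^ δ ≤ L → (∀ i, (p : ℝ) ^ δ ≤ D i) →
    (Z * p + (d - 1) * t * Real.sqrt p) * (p : ℝ) ^ ((k : ℝ) + δ) ≤ L * ∏ i, (D i : ℝ) →
    (L * ∏ i, (D i : ℝ)) * (p : ℝ) ^ (-((k : ℝ) + δ)) ≤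
      (Places k p κ ((p : ℝ) ^ δ) (fun x i => res p t (f i) x) a L c D).ncard := by
  obtain ⟨κ, hκ, hmain⟩ := main k (K + 1) δ hδ hδ1
  obtain ⟨P₀, hP₀⟩ := eventually_atTop.mp hmain
  refine ⟨κ, hκ, max ⌈P₀⌉₊ 3, ?_⟩
  intro p hp hp₀ t ht htK htp d hd1 f hfd Z hZ1 hZ a L c D hL hcD hLp hDp hLD
  have : Fact p.Prime := ⟨hp⟩
  have hp1 : (1 : ℝ) < p := by exact_mod_cast hp.one_lt
  have hp0 : (0 : ℝ) < p := by linarith
  have ht0 : (0 : ℝ) < t := by exact_mod_cast ht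
  have hZ1' : (1 : ℝ) ≤ Z := by exact_mod_cast hZ1
  have hd1' : (1 : ℝ) ≤ d := by exact_mod_cast hd1
  have hm := hP₀ p ((Nat.le_ceil _).trans (by exact_mod_cast (le_max_left _ _).trans hp₀))
  have hp3 : 3 ≤ p := (le_max_right _ _).trans hp₀
  have htp' : (t : ZMod p) ≠ 0 := by
    rw [Ne, ZMod.natCast_eq_zero_iff]
    exact htp
  have hsq : Real.sqrt p * Real.sqrt p = p := Real.mul_self_sqrt hp0.le
  have hsq0 : 0 < Real.sqrt p := Real.sqrt_pos.2 hp0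
  have hpδ : 1 ≤ (p : ℝ) ^ δ := Real.one_le_rpow hp1.le hδ.le
  have hkδ : (p : ℝ) ^ ((k : ℝ) + δ) = (p : ℝ) ^ k * (p : ℝ) ^ δ := by
    rw [Real.rpow_add hp0, Real.rpow_natCast]
  -- the degree is automatically smaller than `p`
  have hdp : d < p := by
    have h1 : (L : ℝ) * ∏ i, (D i : ℝ) ≤ (p * t) * (p : ℝ) ^ k := by
      have h2 : ∏ i, (D i : ℝ) ≤ (p : ℝ) ^ k := by
        calc ∏ i, (D i : ℝ) ≤ ∏ _i : Fin k, (p : ℝ) := by
              refine prod_le_prod (fun i _ => Nat.cast_nonneg _) fun i _ => ?_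
              have := hcD i
              exact_mod_cast (by omega : D i ≤ p)
          _ = (p : ℝ) ^ k := by simp
      have h3 : (L : ℝ) ≤ p * t := by exact_mod_cast hL
      exact mul_le_mul h3 h2 (prod_nonneg fun i _ => Nat.cast_nonneg _) (by positivity)
    have h4 : ((d : ℝ) - 1) * t * Real.sqrt p * (p : ℝ) ^ k ≤ (p * t) * (p : ℝ) ^ k := by
      refine le_trans ?_ (hLD.trans h1)
      rw [hkδ]
      have h5 : ((d : ℝ) - 1) * t * Real.sqrt p ≤ Z * p + (d - 1) * t * Real.sqrt p := by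
        have : 0 ≤ (Z : ℝ) * p := by positivity
        linarith
      have h6 : 0 ≤ ((d : ℝ) - 1) * t * Real.sqrt p :=
        mul_nonneg (mul_nonneg (by linarith) ht0.le) hsq0.le
      calc ((d : ℝ) - 1) * t * Real.sqrt p * (p : ℝ) ^ k
          ≤ (Z * p + (d - 1) * t * Real.sqrt p) * (p : ℝ) ^ k :=
            mul_le_mul_of_nonneg_right h5 (by positivity)
        _ ≤ (Z * p + (d - 1) * t * Real.sqrt p) * ((p : ℝ) ^ k * (p : ℝ) ^ δ) := by
            refine mul_le_mul_of_nonneg_left ?_ (by linarith)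
            have : 0 < (p : ℝ) ^ k := by positivity
            nlinarith
    have h7 : ((d : ℝ) - 1) * t * Real.sqrt p ≤ p * t :=
      le_of_mul_le_mul_right h4 (by positivity)
    have h8 : ((d : ℝ) - 1) * Real.sqrt p ≤ p := by
      have : (((d : ℝ) - 1) * Real.sqrt p) * t ≤ p * t := by linarith
      exact le_of_mul_le_mul_right this ht0
    have h9 : (d : ℝ) - 1 ≤ Real.sqrt p := by
      have : ((d : ℝ) - 1) * Real.sqrt p ≤ Real.sqrt p * Real.sqrt p := by rw [hsq]; exact h8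
      exact le_of_mul_le_mul_right this hsq0
    by_contra hcon
    push Not at hcon
    have h10 : (p : ℝ) ≤ d := by exact_mod_cast hcon
    have h11 : (p : ℝ) - 1 ≤ Real.sqrt p := by linarith
    have h12 : Real.sqrt p * Real.sqrt p - 1 ≤ Real.sqrt p := by rw [hsq]; exact h11
    have h13 : Real.sqrt p < 1.7 := by nlinarith
    have h14 : (p : ℝ) < 3 := by nlinarith
    have h15 : p < 3 := by exact_mod_cast h14
    omega
  refine hm p rfl (p * t) (Nat.mul_pos hp.pos ht) ?_ (fun x i => res p t (f i) x)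
    (fun x i => res_lt t _ x) (Z * p + (d - 1) * t * Real.sqrt p) ?_ ?_ a L c D hL hcD hLp hDp ?_
  · calc p * t ≤ p * p ^ K := Nat.mul_le_mul_left _ htK
      _ = p ^ (K + 1) := by ring
  · have h1 : 0 ≤ ((d : ℝ) - 1) * t * Real.sqrt p :=
      mul_nonneg (mul_nonneg (by linarith) ht0.le) hsq0.le
    nlinarith
  · intro b c' _ h hhp hh
    have h1 := sum_le t f b c' h ht htp' d Z hd1 hdp hfd hZ hhp hh
    rw [Nat.cast_sub hd1, Nat.cast_one] at h1
    exact h1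
  · refine le_trans ?_ hLD
    refine mul_le_mul_of_nonneg_left ?_ ?_
    · exact Real.rpow_le_rpow_of_exponent_le hp1.le (by linarith)
    · have h1 : 0 ≤ ((d : ℝ) - 1) * t * Real.sqrt p :=
        mul_nonneg (mul_nonneg (by linarith) ht0.le) hsq0.le
      positivity

end Pool.Agent.N448.PC
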